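import Mathlib
import Pool.Agent.U605.ST.OrbDim
import Pool.Agent.TH167.SH.Conv
import Pool.Agent.TH167.SH.Defs

set_option autoImplicit false

/-!
# The weak Harbourne-Hirschowitz conjecture: orbits of multiplicities with a packed tail

Let `n ≥ 36` of the numbers `v i` be equal to `M`, `n ≤ 4 (√n - 5) M` (so `M` may be of the order
`√n / 4`), let `tail` be the set of the others which are at least `2`, and suppose that the squares of
the sizes `v i`, `i` in the tail, fit into a rectangle `T × H` which fits beside the `n` numbers `M`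
(`PackedTail`). Let `C` be an integral curve, not exceptional, of class `(d; w)` on the blow-up of the
complex projective plane at very general points. If finitely many quadratic transformations carry
`(d; w)` to a class `(e; u)` such that `u` has a packed tail then `h¹(O(C)) = 0`: the dimension of the
space of the forms of degree `d` with the multiplicities `w i` is
`(d + 2) (d + 1) / 2 - ∑ w i (w i + 1) / 2`.
-/

namespace Pool.Agent.Results.MP_6ec8e4_ag.PackedTailOrbits

open MvPolynomial Pool.Agent.TH167 Pool.Agent.TH167.SHDefs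

/-- The tail: the points whose multiplicity is at least `2` and different from `M`. -/
def tail {h : ℕ} (M : ℕ) (m : Fin h → ℕ) : Finset (Fin h) :=
  Finset.univ.filter fun i => 2 ≤ m i ∧ m i ≠ M

/-- The room beside `n` points of multiplicity `M`. -/
noncomputable def room (n M : ℕ) : ℝ := (3 * √(n : ℝ) - 5 - (n : ℝ) / (4 * M)) / 4

/-- `n ≥ 36` equal numbers `M`, numbers `0` and `1`, and a packed tail. -/
def PackedTail {h : ℕ} (v : Fin h → ℕ) : Prop :=
  ∃ n M T H : ℕ, 36 ≤ n ∧ (Finset.univ.filter fun i => v i = M).card = n ∧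
    (n : ℝ) ≤ 4 * (√(n : ℝ) - 5) * M ∧
    (∀ i ∈ tail M v, v i ≤ T) ∧ 2 * ∑ i ∈ tail M v, v i ^ 2 + T ^ 2 ≤ T * H ∧
    ((H ≤ 2 * M ∧ (T : ℝ) ≤ room n M) ∨ room n M * H ≤ (2 * room n M - T) * M) ∧
    ∑ i ∈ tail M v, (v i : ℝ) * (v i + 1) ≤ (√(n : ℝ) - 5) * M

/-- The reflection of the class `a = (d; w)`, `d H - ∑ w l E l`, in the class
`H - E (i 0) - E (i 1) - E (i 2)`. -/
def reflect {s : ℕ} (i : Fin 3 → Fin s) (a : ℤ × (Fin s → ℤ)) : ℤ × (Fin s → ℤ) :=
  (a.1 + (a.1 - a.2 (i 0) - a.2 (i 1) - a.2 (i 2)),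
    fun l => a.2 l + if l = i 0 ∨ l = i 1 ∨ l = i 2 then a.1 - a.2 (i 0) - a.2 (i 1) - a.2 (i 2)
      else 0)

/-- Finitely many reflections carry the class `a` to `b`. -/
def Carries {s : ℕ} (a b : ℤ × (Fin s → ℤ)) : Prop :=
  Relation.ReflTransGen
    (fun a b : ℤ × (Fin s → ℤ) => ∃ i : Fin 3 → Fin s, Function.Injective i ∧ b = reflect i a) a b

/-- the expected dimension at points with algebraically independent coordinates -/
theorem expDim {h : ℕ} {v : Fin h → ℕ} (hv : PackedTail v) {P : Fin h → Fin 2 → ℂ}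
    (hP : AlgebraicIndependent ℚ (fun ij : Fin h × Fin 2 => P ij.1 ij.2)) (d : ℕ) :
    Pool.Agent.H932R3.ExpDim ℂ v P d := by
  obtain ⟨n, M, T, H, hn, hcard, hM, hT, hTH, hroom, hsum⟩ := hv
  obtain ⟨F, hF, hF'⟩ := Pool.Agent.U605.ST.expDim_packed v hn hM hcard hT hTH hroom hsum
  exact hF' P (fun h0 => hF (hP.eq_zero_of_aeval_eq_zero F h0)) d

theorem result (h : ℕ) :
    ∃ Z : ℕ → MvPolynomial (Fin h × Fin 2) ℂ, (∀ k, Z k ≠ 0) ∧
      ∀ P : Fin h → Fin 2 → ℂ,
        (∀ k, MvPolynomial.eval (fun ij : Fin h × Fin 2 => P ij.1 ij.2) (Z k) ≠ 0) →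
        ∀ (d : ℕ) (w : Fin h → ℕ) (C : MvPolynomial (Fin 3) ℂ), Curve P C d w →
          ∀ (e : ℕ) (u : Fin h → ℕ),
            Carries ((d : ℤ), fun l => (w l : ℤ)) ((e : ℤ), fun l => (u l : ℤ)) → PackedTail u →
              (Module.finrank ℂ ↥(sys P d w) : ℤ) =
                ((d + 2).choose 2 : ℤ) - ∑ i, ((w i + 1).choose 2 : ℤ) := by
  obtain ⟨Z, hZ, hh⟩ := SH.exists_fam (Fin h × Fin 2)
  refine ⟨Z, hZ, fun P hP0 d w C hC e u hc hu => ?_⟩
  have hP := (hh _).1 hP0
  obtain ⟨h1, h2, h3⟩ := SH.curve_iff.1 hC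
  have hc' : Pool.Agent.TH442.NF.Ch (Pool.Agent.TH442.NF.cls d w)
      (Pool.Agent.TH442.NF.cls e u) := hc
  obtain ⟨i1, i2⟩ := hc'.inv
  have i1' : SH.ip e u e u = SH.ip d w d w := i1
  have i2' : SH.kk e u = SH.kk d w := i2
  by_cases hne : MinusOne P C d w
  · exfalso
    obtain ⟨n, M, T, H, hn, hcard, hM, -, -, -, hsum⟩ := id hu
    have hnR : (36 : ℝ) ≤ n := by exact_mod_cast hn
    have hs : 0 ≤ √(n : ℝ) := Real.sqrt_nonneg _
    have hM0 : 0 < M := by
      by_contra hcon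
      have h0 : M = 0 := by omega
      subst h0
      simp only [Nat.cast_zero, mul_zero] at hM
      linarith
    refine Pool.Agent.U605.ST.not_minus_one hn hM0 hcard (hsum.trans ?_)
      (by rw [SH.inter_eq, i1', ← SH.inter_eq]; exact hne.self)
      (by rw [SH.interK_eq, i2', ← SH.interK_eq]; exact hne.canonical)
    have hMR : (0 : ℝ) ≤ M := Nat.cast_nonneg _
    nlinarith
  · have hne' : ¬ (SH.ip d w d w = -1 ∧ SH.kk d w = 1) := fun h0 =>
      hne ⟨hC, by rw [SH.inter_eq, h0.1], by rw [SH.interK_eq, h0.2]⟩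
    obtain ⟨a1, a2⟩ := Pool.Agent.U605.ST.orbit_dim hP h1 h2 h3 hne' hc'
      (fun P' hP' => expDim hu hP' e)
    have a3 : Module.finrank ℂ ↥(sys P d w) =
        (d + 2).choose 2 - ∑ i, (w i + 1).choose 2 := a2
    rw [a3, Nat.cast_sub a1.le]
    push_cast
    rfl

end Pool.Agent.Results.MP_6ec8e4_ag.PackedTailOrbits
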